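import Pool.Agent.H15.HLS.Targets
import Pool.Agent.H22.HSQ.Nec

/-!
# Homogeneous latin squares, uniform version: definitions
-/

namespace Pool.Agent.H15.HLU

open Pool.Agent.H51.Homog Pool.Agent.H22.HSQ Pool.Agent.H15.HLS

/-- `(r, k, r', k')` and `(a, c, a₁, c₁)` have the same rows and the same columns. -/
def Same {α : Type} (a c a₁ c₁ r k r' k' : α) : Prop :=
  ((r = a ∧ r' = a₁) ∨ (r = a₁ ∧ r' = a)) ∧ ((k = c ∧ k' = c₁) ∨ (k = c₁ ∧ k' = c))

open Classical in
/-- the factor of a step: `N` (or `0` if `kill`) on one intercalate, `1` on the others -/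
noncomputable def wt {α : Type} (kill : Bool) (N : ℕ) (a c a₁ c₁ r k r' k' : α) : ℕ :=
  if Same a c a₁ c₁ r k r' k' then (if kill then 0 else N) else 1

open Classical in
/-- the coefficients of the inflation -/
noncomputable def bb {α : Type} {N : ℕ} (a c a₁ c₁ r k : α) : ZMod N :=
  if k = c ∨ k = c₁ then (if r = a then 2 else if r = a₁ then -2 else 1) else 1

open Classical in
/-- the constants of the inflation -/
noncomputable def ff {α : Type} {N : ℕ} (kill : Bool) (a c r k : α) : ZMod N :=
  if kill = true ∧ r = a ∧ k = c then 1 else 0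

/-- `L'` is a latin square above `L` in which every intercalate `(r, k, r', k')` of `L` has exactly
`w r k r' k'` lifts through each cell above `(r, k)`, and there are no other intercalates. -/
structure Lift {α β : Type} (L : α → α → α) (w : α → α → α → α → ℕ) (π : β → α)
    (L' : β → β → β) : Prop where
  latin : IsLatin L'
  proj : ∀ x y, π (L' x y) = L (π x) (π y)
  row : ∀ x y x' y', x' ≠ x → y' ≠ y → L' x' y' = L' x y → L' x' y = L' x y' →
    π x' ≠ π x ∧ π y' ≠ π y
  cnt : ∀ x y r' k', r' ≠ π x → k' ≠ π y → L r' k' = L (π x) (π y) → L r' (π y) = L (π x) k' →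
    {p : β × β | π p.1 = r' ∧ π p.2 = k' ∧ L' p.1 p.2 = L' x y ∧ L' p.1 y = L' x p.2}.ncard =
      w (π x) (π y) r' k'

open Classical in
/-- the weights: `y` on `S₁`, `1` on `S₀`, `0` elsewhere -/
noncomputable def w01 {α : Type} (S₀ S₁ : α → α → α → α → Prop) (y : ℕ) (r k r' k' : α) : ℕ :=
  if S₁ r k r' k' then y else if S₀ r k r' k' then 1 else 0

/-- A latin square of order `m` with two disjoint sets of intercalates which cover every cell
exactly `u` and `c` times. -/
def Base2 (u c m : ℕ) : Prop :=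
  ∃ (L : Fin m → Fin m → Fin m) (S₀ S₁ : Fin m → Fin m → Fin m → Fin m → Prop),
    IsLatin L ∧ IsSys L S₀ ∧ IsSys L S₁ ∧ (∀ r k, cov S₀ r k = u) ∧ (∀ r k, cov S₁ r k = c) ∧
      ∀ r k r' k', ¬ (S₀ r k r' k' ∧ S₁ r k r' k')

end Pool.Agent.H15.HLU
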