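import Pool.Agent.H15.HLU.Targets

/-!
# Homogeneous latin squares, uniform version: large `h`
-/

namespace Pool.Agent.H15.HLU

open Pool.Agent.H51.Homog Pool.Agent.H22.HSQ Pool.Agent.H15.HLS

theorem pp_coprime (y : Fin 3 → ℕ) (h1 : ∀ i, Nat.Coprime (y i) (30 * QQ))
    (h2 : ∀ i j, i ≠ j → Nat.Coprime (y i) (y j)) (i j : Fin 3) (hij : i ≠ j) :
    Nat.Coprime (![1201, 1321, 1801] i * ![251, 257, 263] i * y i)
      (![1201, 1321, 1801] j * ![251, 257, 263] j * y j) := by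
  have hq : ∀ i, Nat.Coprime (y i) QQ := fun i => Nat.Coprime.coprime_mul_left_right (h1 i)
  have hm : ∀ i j : Fin 3, Nat.Coprime (y i) (![1201, 1321, 1801] j * ![251, 257, 263] j) := by
    intro i j
    refine Nat.Coprime.coprime_dvd_right ?_ (hq i)
    unfold QQ
    fin_cases j
    · exact ⟨1321 * 1801 * 257 * 263, by norm_num⟩
    · exact ⟨1201 * 1801 * 251 * 263, by norm_num⟩
    · exact ⟨1201 * 1321 * 251 * 257, by norm_num⟩
  have hc : Nat.Coprime ((![1201, 1321, 1801] i : ℕ) * ![251, 257, 263] i)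
      (![1201, 1321, 1801] j * ![251, 257, 263] j) := by
    fin_cases i <;> fin_cases j <;> first | exact absurd rfl hij | decide
  exact Nat.Coprime.mul_right (Nat.Coprime.mul_left hc (hm i j))
    (Nat.Coprime.mul_left (hm j i).symm (h2 i j hij))

theorem pp_thirty (y : Fin 3 → ℕ) (h1 : ∀ i, Nat.Coprime (y i) (30 * QQ)) (i : Fin 3) :
    Nat.Coprime (![1201, 1321, 1801] i * ![251, 257, 263] i * y i) 30 := by
  have h3 : Nat.Coprime (y i) 30 := Nat.Coprime.coprime_mul_right_right (h1 i)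
  refine Nat.Coprime.mul_left ?_ h3
  fin_cases i <;> decide

theorem pf_LAR (hNUM : T_NUM) (hTYE : T_TYE) (hTYO : T_TYO) (hEVN : T_EVN) (hODN : T_ODN) :
    T_LAR := by
  obtain ⟨E, hE⟩ := hTYE
  obtain ⟨O, hO⟩ := hTYO
  refine ⟨(E + O + 2) ^ 100 + 100 * (E + O), ?_⟩
  intro h n hh hdvd hn
  set X := (E + O + 2) * (h + 1) ^ (E + O) with hX
  have hXn : X ^ 100 ≤ n := by
    refine le_trans ?_ hn
    rw [hX, mul_pow, ← pow_mul]
    refine Nat.mul_le_mul (by omega) (Nat.pow_le_pow_right (by omega) ?_)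
    omega
  have hbE : ∀ J, J ≤ h → E * (J + 1) ^ E ≤ X := by
    intro J hJ
    refine Nat.mul_le_mul (by omega) ?_
    calc (J + 1) ^ E ≤ (h + 1) ^ E := Nat.pow_le_pow_left (by omega) _
      _ ≤ (h + 1) ^ (E + O) := Nat.pow_le_pow_right (by omega) (by omega)
  have hbO : ∀ J, J ≤ h → O * (J + 1) ^ O ≤ X := by
    intro J hJ
    refine Nat.mul_le_mul (by omega) ?_
    calc (J + 1) ^ O ≤ (h + 1) ^ O := Nat.pow_le_pow_left (by omega) _
      _ ≤ (h + 1) ^ (E + O) := Nat.pow_le_pow_right (by omega) (by omega)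
  rcases Nat.even_or_odd n with hev | hod
  · -- even orders
    obtain ⟨y, hy1, hy2, hy3⟩ := hNUM h (by omega)
    have hT := hE 1 h (Or.inl rfl) (by omega) y hy1 hy2
    have hT' : ∀ (i : Fin 3) (a : ℕ), ∃ σ k : ℕ, 1 ≤ a → a ≤ 3 → (IsOrder h (2 ^ a * σ) ∧
        2 ^ a * σ ≤ X ∧ σ ∣ (![1201, 1321, 1801] i * ![251, 257, 263] i * y i) ^ k) := by
      intro i a
      by_cases ha : 1 ≤ a ∧ a ≤ 3
      · obtain ⟨σ, k, e1, e2, e3⟩ := hT i a ha.1 ha.2
        refine ⟨σ, k, fun _ _ => ⟨?_, e2.trans (hbE h le_rfl), e3⟩⟩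
        rwa [one_mul] at e1
      · exact ⟨0, 0, fun h1 h2 => absurd ⟨h1, h2⟩ ha⟩
    choose s k hs using hT'
    have hcop : ∀ (i j : Fin 3) (a b : ℕ), i ≠ j → 1 ≤ a → a ≤ 3 → 1 ≤ b → b ≤ 3 →
        Nat.Coprime (s i a) (s j b) := by
      intro i j a b hij h1 h2 h3 h4
      exact Nat.Coprime.of_dvd (hs i a h1 h2).2.2 (hs j b h3 h4).2.2
        (Nat.Coprime.pow _ _ (pp_coprime y hy2 hy3 i j hij))
    have h30 : ∀ (i : Fin 3) (a : ℕ), 1 ≤ a → a ≤ 3 → Nat.Coprime (s i a) 30 := by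
      intro i a h1 h2
      exact Nat.Coprime.of_dvd_left (hs i a h1 h2).2.2 (Nat.Coprime.pow_left _ (pp_thirty y hy2 i))
    have hodd : ∀ (i : Fin 3) (a : ℕ), 1 ≤ a → a ≤ 3 → Odd (s i a) := by
      intro i a h1 h2
      have : Nat.Coprime (s i a) 2 := Nat.Coprime.of_dvd_right (by norm_num) (h30 i a h1 h2)
      exact Nat.coprime_two_right.1 this
    refine hEVN h X (s 0 1) (s 1 1) (s 0 2) (fun a => s 2 a) (hs 0 1 le_rfl (by norm_num)).1
      (hs 1 1 le_rfl (by norm_num)).1 ?_ ?_ (hodd 0 1 le_rfl (by norm_num))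
      (hodd 1 1 le_rfl (by norm_num)) (hodd 0 2 (by norm_num) (by norm_num))
      (hcop 0 1 1 1 (by decide) le_rfl (by norm_num) le_rfl (by norm_num))
      ?_ ?_ ?_ n hev.two_dvd hXn
    · have := (hs 0 2 (by norm_num) (by norm_num)).1
      norm_num at this
      exact this
    · intro a h1 h2
      refine ⟨(hs 2 a h1 h2).1, (hs 2 a h1 h2).2.1, ?_⟩
      have e30 := h30 2 a h1 h2
      have e2 : Nat.Coprime (s 2 a) 2 := Nat.Coprime.of_dvd_right (by norm_num) e30
      have e15 : Nat.Coprime (s 2 a) 15 := Nat.Coprime.of_dvd_right (by norm_num) e30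
      exact Nat.Coprime.mul_right e2 (Nat.Coprime.mul_right e15 (Nat.Coprime.mul_right
        (Nat.Coprime.mul_right (hcop 2 0 a 2 (by decide) h1 h2 (by norm_num) (by norm_num))
          (hcop 2 0 a 1 (by decide) h1 h2 (by norm_num) (by norm_num)))
        (hcop 2 1 a 1 (by decide) h1 h2 (by norm_num) (by norm_num))))
    · have := (hs 0 1 le_rfl (by norm_num)).2.1
      norm_num at this
      exact this
    · have := (hs 1 1 le_rfl (by norm_num)).2.1
      norm_num at this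
      exact this
    · have := (hs 0 2 (by norm_num) (by norm_num)).2.1
      norm_num at this
      exact this
  · -- odd orders
    have h4 : 4 ∣ h := by
      have h2 : Nat.Coprime 2 n := Nat.coprime_two_left.2 hod
      have h3 : Nat.Coprime 4 (n ^ 2) := by
        have h5 : Nat.Coprime (2 ^ 2) (n ^ 2) := Nat.Coprime.pow 2 2 h2
        simpa using h5
      exact h3.dvd_of_dvd_mul_left hdvd
    obtain ⟨J, rfl⟩ := h4
    obtain ⟨y, hy1, hy2, hy3⟩ := hNUM J (by omega)
    obtain ⟨ω, kω, o1, o2, o3⟩ := hE 4 J (Or.inr rfl) (by omega) y hy1 hy2 0 1 le_rfl (by norm_num)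
    have hT := hO J (by omega) y hy1 hy2
    choose s k hs using hT
    have hω30 : Nat.Coprime ω 30 :=
      Nat.Coprime.of_dvd_left o3 (Nat.Coprime.pow_left _ (pp_thirty y hy2 0))
    have h30 : ∀ i : Fin 3, Nat.Coprime (s i) 30 := fun i =>
      Nat.Coprime.of_dvd_left (hs i).2.2 (Nat.Coprime.pow_left _ (pp_thirty y hy2 i))
    have hcop : ∀ i j : Fin 3, i ≠ j → Nat.Coprime (s i) (s j) := fun i j hij =>
      Nat.Coprime.of_dvd (hs i).2.2 (hs j).2.2
        (Nat.Coprime.pow _ _ (pp_coprime y hy2 hy3 i j hij))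
    have hodd : ∀ i : Fin 3, Odd (s i) := fun i =>
      Nat.coprime_two_right.1 (Nat.Coprime.of_dvd_right (by norm_num) (h30 i))
    have hcω : Nat.Coprime (s 2) ω := Nat.Coprime.of_dvd (hs 2).2.2 o3
      (Nat.Coprime.pow _ _ (pp_coprime y hy2 hy3 2 0 (by decide)))
    have e2 : Nat.Coprime (s 2) 2 := Nat.Coprime.of_dvd_right (by norm_num) (h30 2)
    have e15 : Nat.Coprime (s 2) 15 := Nat.Coprime.of_dvd_right (by norm_num) (h30 2)
    refine hODN (4 * J) X (s 0) (s 1) (s 2) ω (hs 0).1 (hs 1).1 (hs 2).1 ?_ (hodd 0) (hodd 1)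
      (Nat.coprime_two_right.1 (Nat.Coprime.of_dvd_right (by norm_num) hω30))
      (hcop 0 1 (by decide)) ?_ ((hs 0).2.1.trans (hbO J (by omega)))
      ((hs 1).2.1.trans (hbO J (by omega))) ((hs 2).2.1.trans (hbO J (by omega))) ?_ n hod hXn
    · norm_num at o1
      exact o1
    · exact Nat.Coprime.mul_right e2 (Nat.Coprime.mul_right e15 (Nat.Coprime.mul_right
        (Nat.Coprime.mul_right hcω (hcop 2 0 (by decide))) (hcop 2 1 (by decide))))
    · have := o2.trans (hbE J (by omega))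
      norm_num at this
      exact this

end Pool.Agent.H15.HLU
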