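import Pool.Agent.H15.HLS.Main
import Pool.Agent.H1.HLU.B2D
import Pool.Agent.H1.HLU.OPR
import Pool.Agent.H1.HLU.TYO
import Pool.Agent.H7.HLU.IND
import Pool.Agent.H12.HLU.EVN
import Pool.Agent.H13.HLU.TYE
import Pool.Agent.H15.HLU.LAR
import Pool.Agent.H34.HLU.IN2
import Pool.Agent.H38.HLU.FIN
import Pool.Agent.H38.HLU.RE2
import Pool.Agent.H40.HLU.UNI
import Pool.Agent.H44.HLU.ODN
import Pool.Agent.H53.HLU.NUM
import Pool.Agent.H10.HLU.B2O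
import Pool.Agent.H1.HLU.B2P
import Pool.Agent.H60.HLU.GF2
import Pool.Agent.H67.HLU.STP
import Pool.Agent.H89.HLU.CRT
import Pool.Agent.H95.HLU.WCN
import Pool.Agent.H97.HLU.GL2
import Pool.Agent.H97.HLU.SOL

/-!
# Homogeneous latin squares, uniform version: assembly
-/

namespace Pool.Agent.H15.HLU

open Pool.Agent.H51.Homog Pool.Agent.H22.HSQ Pool.Agent.H15.HLS

theorem hlu_main : T_UNI := by
  have hHIN : T_HIN := Pool.Agent.H42.HLS.HIN.pf_HIN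
  have hBLK : T_BLK := Pool.Agent.H61.HLS.pf_BLK
  have hEXB : T_EXB := Pool.Agent.H42.HLS.EXB.pf_EXB
  have hEQE : T_EQE := Pool.Agent.H14.HLS.pf_EQE
  have hLIN : T_LIN := Pool.Agent.H74.HLS.pf_LIN
  have hLAT : T_LAT := Pool.Agent.H63.HLS.pf_LAT hHIN hBLK hEXB hEQE
  have hINF : T_INF := Pool.Agent.H14.HLS.pf_INF hHIN hBLK hEXB hEQE
  have hINT : T_INT := Pool.Agent.H38.HLS.pf_INT hHIN hBLK hEXB hEQE hLIN
  have hCNB : T_CNB := pf_CNB hBLK hEXB hINF hINT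
  have hCNH : T_CNH := Pool.Agent.H66.HLS.pf_CNH hINF
  have hTRO : T_TRO := Pool.Agent.H38.HLS.pf_TRO
  have hTRH : T_TRH := Pool.Agent.H86.HLS.pf_TRH
  have hHOZ : T_HOZ := Pool.Agent.H42.HLS.HOZ.pf_HOZ hTRH
  have hHOE : T_HOE := Pool.Agent.H66.HLS.pf_HOE
  have hMSQ : T_MSQ := Pool.Agent.H42.HLS.MSQ.pf_MSQ
  have hREP : T_REP := Pool.Agent.H66.HLS.pf_REP
  have hSTP : T_STP := Pool.Agent.H67.HLU.pf_STP Pool.Agent.H97.HLU.pf_SOL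
  have hIND : T_IND := Pool.Agent.H7.HLU.pf_IND hSTP
  have hIN2 : T_IN2 := Pool.Agent.H34.HLU.pf_IN2 hIND Pool.Agent.H95.HLU.pf_WCN hTRO
  have hB2D : T_B2D := Pool.Agent.H1.HLU.pf_B2D
  have hB2P : T_B2P := Pool.Agent.H1.HLU.pf_B2P
  have hB2O : T_B2O := Pool.Agent.H10.HLU.pf_B2O hB2P
  have hTYE : T_TYE := Pool.Agent.H13.HLU.pf_TYE hIN2 hB2D
  have hTYO : T_TYO := Pool.Agent.H1.HLU.pf_TYO hIN2 hB2O
  have hOPR : T_OPR := Pool.Agent.H1.HLU.pf_OPR hMSQ hTRO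
  have hGF2 : T_GF2 := Pool.Agent.H60.HLU.pf_GF2 Pool.Agent.H38.HLU.pf_RE2
  have hGL2 : T_GL2 := Pool.Agent.H97.HLU.pf_GL2 hLAT hCNB hCNH hTRO hTRH hHOZ hHOE hMSQ hGF2
  have hFIN : T_FIN := Pool.Agent.H38.HLU.pf_FIN hGL2 hREP
  have hEVN : T_EVN := Pool.Agent.H12.HLU.pf_EVN hFIN hOPR Pool.Agent.H89.HLU.pf_CRT
  have hODN : T_ODN := Pool.Agent.H44.HLU.pf_ODN hFIN hOPR
  have hLAR : T_LAR := pf_LAR Pool.Agent.H53.HLU.pf_NUM hTYE hTYO hEVN hODN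
  exact Pool.Agent.H40.HLU.pf_UNI hLAR hls_main

end Pool.Agent.H15.HLU
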