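import Pool.Agent.H15.HLU.Defs

/-!
# Homogeneous latin squares, uniform version: targets
-/

namespace Pool.Agent.H15.HLU

open Pool.Agent.H51.Homog Pool.Agent.H22.HSQ Pool.Agent.H15.HLS

/-! ## Weighted inflation -/

/-- the number of solutions of the equations of a lift -/
def T_SOL : Prop := ∀ (α : Type) (L : α → α → α), IsLatin L → ∀ a c a₁ c₁ : α, a₁ ≠ a → c₁ ≠ c →
  L a₁ c₁ = L a c → L a₁ c = L a c₁ → ∀ r k r' k' : α, r' ≠ r → k' ≠ k → L r' k' = L r k →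
  L r' k = L r k' → ∀ (N : ℕ) (kill : Bool), 0 < N → Nat.Coprime N 6 → (kill = true → 1 < N) →
  ∀ s t : ZMod N, {p : ZMod N × ZMod N |
    p.1 + bb a c a₁ c₁ r' k' * p.2 + ff kill a c r' k' =
      s + bb a c a₁ c₁ r k * t + ff kill a c r k ∧
    p.1 + bb a c a₁ c₁ r' k * t + ff kill a c r' k =
      s + bb a c a₁ c₁ r k' * p.2 + ff kill a c r k'}.ncard = wt kill N a c a₁ c₁ r k r' k'

/-- one step of the inflation -/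
def T_STP : Prop := ∀ (α β : Type) [Fintype α] [Fintype β] (L : α → α → α)
  (w : α → α → α → α → ℕ) (π : β → α) (L' : β → β → β), IsLatin L → Lift L w π L' →
  ∀ a c a₁ c₁ : α, a₁ ≠ a → c₁ ≠ c → L a₁ c₁ = L a c → L a₁ c = L a c₁ →
  ∀ (N : ℕ) (kill : Bool), 0 < N → Nat.Coprime N 6 → (kill = true → 1 < N) →
    ∃ L'' : β × ZMod N → β × ZMod N → β × ZMod N,
      Lift L (fun r k r' k' => w r k r' k' * wt kill N a c a₁ c₁ r k r' k')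
        (fun x => π x.1) L''

/-- all steps -/
def T_IND : Prop := ∀ (m : ℕ) (L : Fin m → Fin m → Fin m)
  (S₀ S₁ : Fin m → Fin m → Fin m → Fin m → Prop), IsLatin L → IsSys L S₀ → IsSys L S₁ →
  (∀ r k r' k', ¬ (S₀ r k r' k' ∧ S₁ r k r' k')) → ∃ A B : ℕ, ∀ y q : ℕ, 0 < y →
  Nat.Coprime y 6 → 1 < q → Nat.Coprime q 6 →
    ∃ (β : Type) (_ : Fintype β) (π : β → Fin m) (L' : β → β → β),
      Fintype.card β = m * y ^ A * q ^ B ∧ Lift L (w01 S₀ S₁ y) π L'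

/-- the square of the last step is homogeneous -/
def T_WCN : Prop := ∀ (m u c y : ℕ) (L : Fin m → Fin m → Fin m)
  (S₀ S₁ : Fin m → Fin m → Fin m → Fin m → Prop), IsLatin L → IsSys L S₀ → IsSys L S₁ →
  (∀ r k, cov S₀ r k = u) → (∀ r k, cov S₁ r k = c) →
  (∀ r k r' k', ¬ (S₀ r k r' k' ∧ S₁ r k r' k')) →
  ∀ (β : Type) [Fintype β] (π : β → Fin m) (L' : β → β → β), Lift L (w01 S₀ S₁ y) π L' →
    IsHomogeneous (u + c * y) L'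

/-- weighted inflation -/
def T_IN2 : Prop := ∀ u c m : ℕ, Base2 u c m → ∃ A B : ℕ, ∀ y q : ℕ, 0 < y →
  Nat.Coprime y 6 → 1 < q → Nat.Coprime q 6 → IsOrder (u + c * y) (m * y ^ A * q ^ B)

/-! ## Base squares -/

/-- from the dihedral groups -/
def T_B2D : Prop := ∀ u c m : ℕ, 0 < m → u + c ≤ m → Base2 u c (2 * m)

/-- from products -/
def T_B2P : Prop := ∀ u c m₁ m₂ : ℕ, Base u m₁ → Base c m₂ → Base2 u c (m₁ * m₂)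

/-- base squares of odd order -/
def T_B2O : Prop := ∀ r v : ℕ, 3 ≤ v → Base2 (4 * r) 4 ((120 * v + 1) ^ (r + 1))

/-! ## Numbers -/

/-- the primes which are used -/
def QQ : ℕ := 1201 * 1321 * 1801 * 251 * 257 * 263

/-- three numbers slightly below `J` -/
def T_NUM : Prop := ∀ J : ℕ, 300 ≤ J → ∃ y : Fin 3 → ℕ, (∀ i, y i ≤ J ∧ J ≤ y i + 240) ∧
  (∀ i, Nat.Coprime (y i) (30 * QQ)) ∧ ∀ i j, i ≠ j → Nat.Coprime (y i) (y j)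

/-- orders of even type; `P i` contains the odd primes of the orders of index `i` -/
def T_TYE : Prop := ∃ C : ℕ, ∀ c J : ℕ, c = 1 ∨ c = 4 → 300 ≤ J → ∀ y : Fin 3 → ℕ,
  (∀ i, y i ≤ J ∧ J ≤ y i + 240) → (∀ i, Nat.Coprime (y i) (30 * QQ)) →
  ∀ (i : Fin 3) (a : ℕ), 1 ≤ a → a ≤ 3 → ∃ σ k : ℕ, IsOrder (c * J) (2 ^ a * σ) ∧
    2 ^ a * σ ≤ C * (J + 1) ^ C ∧
    σ ∣ (![1201, 1321, 1801] i * ![251, 257, 263] i * y i) ^ k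

/-- orders of odd type -/
def T_TYO : Prop := ∃ C : ℕ, ∀ J : ℕ, 300 ≤ J → ∀ y : Fin 3 → ℕ,
  (∀ i, y i ≤ J ∧ J ≤ y i + 240) → (∀ i, Nat.Coprime (y i) (30 * QQ)) →
  ∀ i : Fin 3, ∃ σ k : ℕ, IsOrder (4 * J) σ ∧ σ ≤ C * (J + 1) ^ C ∧
    σ ∣ (![1201, 1321, 1801] i * ![251, 257, 263] i * y i) ^ k

/-- products with odd numbers -/
def T_OPR : Prop := ∀ h s N : ℕ, IsOrder h s → Odd N → IsOrder h (s * N)

/-! ## Gluing with polynomial bounds -/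

/-- the numbers `x + 4 τ x ^ 2` satisfy the relation only trivially -/
def T_RE2 : Prop := ∀ τ v a b c : ℕ, 16 * (τ + 1) ^ 3 < v → a < τ → b < τ → c < τ →
  ((b + 4 * τ * b ^ 2 : ℕ) : ZMod v) + 2 * ((c + 4 * τ * c ^ 2 : ℕ) : ZMod v) =
    3 * ((a + 4 * τ * a ^ 2 : ℕ) : ZMod v) → a = b ∧ b = c

/-- a class map -/
def T_GF2 : Prop := ∀ k a₁ s₁ a₂ s₂ v : ℕ, 0 < k → 16 * (k * (a₁ + a₂) + 1) ^ 3 < v →
  ∃ g : ZMod k × ((Fin a₁ × Fin s₁) ⊕ (Fin a₂ × Fin s₂)) → ZMod v,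
    (∀ c, Nat.card (Fib g c) = 0 ∨ Nat.card (Fib g c) = s₁ ∨ Nat.card (Fib g c) = s₂) ∧
    ∀ s t u, g t + 2 * g u = 3 * g s → s.1 = t.1 ∧ t.1 = u.1

/-- the gluing theorem for orders -/
def T_GL2 : Prop := ∀ h s₁ s₂ w k a₁ a₂ v : ℕ, IsOrder h s₁ → IsOrder h s₂ → IsOrder h w →
  0 < s₁ → 0 < s₂ → 2 * s₁ ∣ w → 2 * s₂ ∣ w → 1 < k → Odd k →
  IsOrder h (a₁ * s₁ + a₂ * s₂) →
  Nat.Coprime v 30 → 16 * (k * (a₁ + a₂) + 1) ^ 3 < v →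
    IsOrder h (w * v + k * (a₁ * s₁ + a₂ * s₂))

/-- all large orders in one residue class -/
def T_FIN : Prop := ∀ h s₁ s₂ w t Y n : ℕ, IsOrder h s₁ → IsOrder h s₂ → IsOrder h w →
  0 < s₁ → 0 < s₂ → 0 < w → 2 * s₁ ∣ w → 2 * s₂ ∣ w → IsOrder h t → Nat.gcd s₁ s₂ ∣ t →
  s₁ * s₂ ≤ t → t ≤ Y → t + w ≡ n [MOD 30 * w] →
  w * (16 * ((30 * w + 1) * (2 * Y) + 1) ^ 3 + 31) + (30 * w + 1) * Y + w ≤ n → IsOrder h n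

/-- a congruence modulo an odd number and modulo `8` -/
def T_CRT : Prop := ∀ O τ a ρ l : ℕ, Odd O → Nat.Coprime τ (2 * O) → 2 ∣ ρ → 1 ≤ a → a ≤ 3 →
  (a = 1 → ρ % 4 = 2) → (a = 2 → ρ % 8 = 4) → (a = 3 → ρ % 8 = 0) →
    ∃ N, Odd N ∧ l ≤ N ∧ N ≤ l + 8 * O ∧ 2 ^ a * τ * N ≡ ρ [MOD 8 * O]

/-- even orders -/
def T_EVN : Prop := ∀ (h X σ₁ σ₂ σ₄ : ℕ) (τ : ℕ → ℕ), IsOrder h (2 * σ₁) →
  IsOrder h (2 * σ₂) → IsOrder h (4 * σ₄) →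
  (∀ a, 1 ≤ a → a ≤ 3 → IsOrder h (2 ^ a * τ a) ∧ 2 ^ a * τ a ≤ X ∧
    Nat.Coprime (τ a) (2 * (15 * (σ₄ * σ₁ * σ₂)))) →
  Odd σ₁ → Odd σ₂ → Odd σ₄ → Nat.Coprime σ₁ σ₂ → 2 * σ₁ ≤ X → 2 * σ₂ ≤ X → 4 * σ₄ ≤ X →
  ∀ n : ℕ, 2 ∣ n → X ^ 100 ≤ n → IsOrder h n

/-- odd orders -/
def T_ODN : Prop := ∀ h X σ₁ σ₂ σ₃ ω : ℕ, IsOrder h σ₁ → IsOrder h σ₂ → IsOrder h σ₃ →
  IsOrder h (2 * ω) → Odd σ₁ → Odd σ₂ → Odd ω → Nat.Coprime σ₁ σ₂ →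
  Nat.Coprime σ₃ (2 * (15 * (ω * σ₁ * σ₂))) → σ₁ ≤ X → σ₂ ≤ X → σ₃ ≤ X → 2 * ω ≤ X →
  ∀ n : ℕ, Odd n → X ^ 100 ≤ n → IsOrder h n

/-- the theorem for large `h` -/
def T_LAR : Prop := ∃ C : ℕ, ∀ h n : ℕ, 1200 ≤ h → 4 ∣ n ^ 2 * h → C * (h + 1) ^ C ≤ n →
  IsOrder h n

/-- the theorem -/
def T_UNI : Prop := ∃ A : ℕ, ∀ h n : ℕ, A * (h + 1) ^ A ≤ n → (IsOrder h n ↔ 4 ∣ n ^ 2 * h)

end Pool.Agent.H15.HLU
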